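import Pool.Agent.Lib.MP_8b37c6_an.Z1

/-!
# MP_8b37c6_an : the optimal exponent of the three-balls inequality in high dimension
-/

namespace Pool.Agent.Results.MP_8b37c6_an.HighDimension

theorem result :
    (∀ a b : ℝ, 0 < a → a < b → b < 1 → ∃ n0 : ℕ, ∀ n : ℕ, n0 ≤ n → ∀ R : ℝ, 0 < R →
      TB.aStar n (a * R) (b * R) R = TB.gam n a b ∧
      TB.Admissible n (a * R) (b * R) R (TB.gam n a b)) ∧
    (∀ n : ℕ, 2 ≤ n → ∀ ρ r R : ℝ, 0 < ρ → ρ < r → r < R →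
      TB.aStar n ρ r R ≤ TB.gam n (ρ / R) (r / R) ∧
      TB.aStar n ρ r R < Real.log (r / R) / Real.log (ρ / R)) :=
  ⟨fun _ _ ha hab hb => TB.exact ha hab hb, fun _ hn _ _ _ hρ hr hR => TB.upper hn hρ hr hR⟩

end Pool.Agent.Results.MP_8b37c6_an.HighDimension
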