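import Pool.Agent.Lib.MP_8b37c6_anP.G

/-!
# MP_8b37c6_an : the optimal exponent of the three-balls inequality in the plane, small inner radius
-/

namespace Pool.Agent.Results.MP_8b37c6_an.SmallInnerRadius

open Real

theorem result :
    ∀ b : ℝ, 0 < b → b < 1 → ∃ a0 : ℝ, 0 < a0 ∧ a0 < b ∧ ∀ a R : ℝ, 0 < a → a ≤ a0 → 0 < R →
      TB.aStar 2 (a * R) (b * R) R = log (4 / π * arctan b) / log (4 / π * arctan a) ∧
      TB.Admissible 2 (a * R) (b * R) R (log (4 / π * arctan b) / log (4 / π * arctan a)) :=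
  TBP.small_inner

end Pool.Agent.Results.MP_8b37c6_an.SmallInnerRadius
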