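import Pool.Agent.Lib.MP_8b37c6_anP.L

/-!
# MP_8b37c6_an : the optimal exponent of the three-balls inequality in the plane, small radii
-/

namespace Pool.Agent.Results.MP_8b37c6_an.SmallRadii

open Real

theorem result :
    ∀ a b R : ℝ, 0 < a → a < b → b ≤ 1 / 1000 → 0 < R →
      TB.aStar 2 (a * R) (b * R) R = log (4 / π * arctan b) / log (4 / π * arctan a) ∧
      TB.Admissible 2 (a * R) (b * R) R (log (4 / π * arctan b) / log (4 / π * arctan a)) :=
  TBP.small_radii

end Pool.Agent.Results.MP_8b37c6_an.SmallRadii
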